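import Pool.Agent.H37.CND.Stmts

set_option autoImplicit false

namespace Pool.CND

open Finset

section
variable {G : Type} [Group G] [Fintype G]

open scoped Classical in
/-- The sum over a coset `g N`. -/
theorem cmb_coset (b : G → ℤ) (N : Subgroup G) (g : G) :
    sm b {x | g⁻¹ * x ∈ N} = ∑ m ∈ univ.filter (fun m => m ∈ N), b (g * m) := by
  unfold sm
  refine Finset.sum_equiv (Equiv.mulLeft g⁻¹) ?_ ?_
  · intro x
    simp only [Finset.mem_filter, Finset.mem_univ, true_and, Set.mem_setOf_eq, Equiv.coe_mulLeft]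
  · intro x _
    simp only [Equiv.coe_mulLeft, mul_inv_cancel_left]

open scoped Classical in
/-- Right translation by an element of `N` permutes `I \ N`. -/
theorem cmb_shift (b : G → ℤ) (N I : Subgroup G) (hNI : N ≤ I) (m : G) (hm : m ∈ N) :
    ∑ g ∈ univ.filter (fun g => g ∈ I ∧ g ∉ N), b (g * m)
      = ∑ g ∈ univ.filter (fun g => g ∈ I ∧ g ∉ N), b g := by
  refine Finset.sum_equiv (Equiv.mulRight m) ?_ ?_
  · intro x
    simp only [Finset.mem_filter, Finset.mem_univ, true_and, Equiv.coe_mulRight]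
    rw [Subgroup.mul_mem_cancel_right I (hNI hm), Subgroup.mul_mem_cancel_right N hm]
  · intro x _
    simp only [Equiv.coe_mulRight]

open scoped Classical in
theorem cmb_card (N : Subgroup G) :
    (univ.filter (fun m => m ∈ N)).card = Nat.card N := by
  rw [Nat.card_eq_fintype_card, Fintype.card_subtype]

open scoped Classical in
/-- The number of elements of `I \ N`. -/
theorem cmb_cardT (N I : Subgroup G) (hNI : N ≤ I) :
    (univ.filter (fun g => g ∈ I ∧ g ∉ N)).card + Nat.card N = Nat.card I := by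
  rw [← cmb_card N, ← cmb_card I, ← Finset.card_union_of_disjoint]
  · congr 1
    ext x
    simp only [Finset.mem_union, Finset.mem_filter, Finset.mem_univ, true_and]
    constructor
    · rintro (h | h)
      · exact h.1
      · exact hNI h
    · intro h
      by_cases hx : x ∈ N
      · exact Or.inr hx
      · exact Or.inl ⟨h, hx⟩
  · rw [Finset.disjoint_left]
    intro x hx hx'
    simp only [Finset.mem_filter, Finset.mem_univ, true_and] at hx hx'
    exact hx.2 hx'

open scoped Classical in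
theorem cmb_sumT (b : G → ℤ) (N I : Subgroup G) (B : ℤ) (hNI : N ≤ I)
    (h : ∀ g ∈ I, g ∉ N → sm b {x | g⁻¹ * x ∈ N} = Nat.card N * B) :
    ∑ g ∈ univ.filter (fun g => g ∈ I ∧ g ∉ N), b g
      = ((univ.filter (fun g => g ∈ I ∧ g ∉ N)).card : ℤ) * B := by
  have h1 : ∑ g ∈ univ.filter (fun g => g ∈ I ∧ g ∉ N),
      ∑ m ∈ univ.filter (fun m => m ∈ N), b (g * m)
      = ((univ.filter (fun g => g ∈ I ∧ g ∉ N)).card : ℤ) * (Nat.card N * B) := by
    rw [Finset.sum_congr rfl (g := fun _ => (Nat.card N : ℤ) * B)]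
    · rw [Finset.sum_const, nsmul_eq_mul]
    · intro g hg
      simp only [Finset.mem_filter, Finset.mem_univ, true_and] at hg
      rw [← cmb_coset, h g hg.1 hg.2]
  rw [Finset.sum_comm] at h1
  have h2 : ∑ m ∈ univ.filter (fun m => m ∈ N),
      ∑ g ∈ univ.filter (fun g => g ∈ I ∧ g ∉ N), b (g * m)
      = (Nat.card N : ℤ) * ∑ g ∈ univ.filter (fun g => g ∈ I ∧ g ∉ N), b g := by
    rw [Finset.sum_congr rfl (g := fun _ => ∑ g ∈ univ.filter (fun g => g ∈ I ∧ g ∉ N), b g)]
    · rw [Finset.sum_const, nsmul_eq_mul, cmb_card]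
    · intro m hm
      simp only [Finset.mem_filter, Finset.mem_univ, true_and] at hm
      exact cmb_shift b N I hNI m hm
  rw [h2] at h1
  have hpos : (0 : ℤ) < (Nat.card N : ℤ) := by exact_mod_cast Nat.card_pos
  apply mul_left_cancel₀ hpos.ne'
  rw [h1]
  ring

open scoped Classical in
/-- The sum over `I \ 1`. -/
theorem cmb_split (b : G → ℤ) (N I : Subgroup G) (hNI : N ≤ I) :
    sm b {g | g ∈ I ∧ g ≠ 1} = sm b {g | g ∈ N ∧ g ≠ 1}
      + ∑ g ∈ univ.filter (fun g => g ∈ I ∧ g ∉ N), b g := by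
  unfold sm
  rw [← Finset.sum_union]
  · refine Finset.sum_congr ?_ fun _ _ => rfl
    ext x
    simp only [Finset.mem_union, Finset.mem_filter, Finset.mem_univ, true_and, Set.mem_setOf_eq]
    constructor
    · rintro ⟨h1, h2⟩
      by_cases hx : x ∈ N
      · exact Or.inl ⟨hx, h2⟩
      · exact Or.inr ⟨h1, hx⟩
    · rintro (⟨h1, h2⟩ | ⟨h1, h2⟩)
      · exact ⟨hNI h1, h2⟩
      · exact ⟨h1, fun h => h2 (h ▸ N.one_mem)⟩
  · rw [Finset.disjoint_left]
    intro x hx hx'
    simp only [Finset.mem_filter, Finset.mem_univ, true_and, Set.mem_setOf_eq] at hx hx'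
    exact hx'.2 hx.1

/-- For `g` in `I \ N` with `b g = l` one has `b (g n) = b n` for `n ≠ 1` in `N`. -/
theorem cmb_val (b : G → ℤ) (N I : Subgroup G) (l : ℤ) (hU : UM b I) (hNI : N ≤ I)
    (hl : IsLst b I l) (g : G) (hg : g ∈ I) (hgN : g ∉ N) (hgl : b g = l) (n : G) (hn : n ∈ N)
    (hn1 : n ≠ 1) : b (g * n) = b n := by
  have hg1 : g ≠ 1 := fun h => hgN (h ▸ N.one_mem)
  have hgn : g * n ∉ N := fun h => hgN ((Subgroup.mul_mem_cancel_right N hn).1 h)
  have hgn1 : g * n ≠ 1 := fun h => hgn (h ▸ N.one_mem)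
  have hgnI : g * n ∈ I := I.mul_mem hg (hNI hn)
  have h1 := hU.mul g hg n (hNI hn) hg1 hn1 hgn1
  have h2 : b n ≤ l := hl.le n (hNI hn) hn1
  have h3 : b (g * n) ≤ l := hl.le _ hgnI hgn1
  have hinv : b g⁻¹ = l := by rw [hU.inv g hg hg1, hgl]
  have h4 := hU.mul g⁻¹ (I.inv_mem hg) (g * n) hgnI (fun h => hg1 (inv_eq_one.1 h)) hgn1
    (by rw [inv_mul_cancel_left]; exact hn1)
  rw [inv_mul_cancel_left, hinv, min_eq_right h3] at h4
  rw [hgl, min_eq_right h2] at h1
  exact le_antisymm h4 h1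

open scoped Classical in
/-- `l + ∑_{n ≠ 1} b n = |N| B` if `l` is a value of `b` on `I \ N`. -/
theorem cmb_key (b : G → ℤ) (N I : Subgroup G) (B l : ℤ) (hU : UM b I) (hNI : N ≤ I)
    (h : ∀ g ∈ I, g ∉ N → sm b {x | g⁻¹ * x ∈ N} = Nat.card N * B)
    (hl : IsLst b I l) (g : G) (hg : g ∈ I) (hgN : g ∉ N) (hgl : b g = l) :
    l + sm b {g | g ∈ N ∧ g ≠ 1} = Nat.card N * B := by
  rw [← h g hg hgN, cmb_coset]
  have hone : (1 : G) ∈ univ.filter (fun m => m ∈ N) := by
    simp only [Finset.mem_filter, Finset.mem_univ, true_and]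
    exact N.one_mem
  rw [← Finset.add_sum_erase _ _ hone, mul_one, hgl]
  congr 1
  unfold sm
  refine Finset.sum_congr ?_ ?_
  · ext x
    simp only [Finset.mem_erase, Finset.mem_filter, Finset.mem_univ, true_and, Set.mem_setOf_eq]
    exact and_comm
  · intro x hx
    simp only [Finset.mem_erase, Finset.mem_filter, Finset.mem_univ, true_and] at hx
    exact (cmb_val b N I l hU hNI hl g hg hgN hgl x hx.2 hx.1).symm

end

theorem cmb_thm : S_CMB := by
  classical
  intro p G _ _ b N I B l hp hU hNI hcard h hl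
  have hn0 : 0 < Nat.card N := Nat.card_pos
  have hn0q : (0 : ℚ) < (Nat.card N : ℚ) := by exact_mod_cast hn0
  have hp0q : (0 : ℚ) < (p : ℚ) := by exact_mod_cast hp.pos
  have hT : ((univ.filter (fun g => g ∈ I ∧ g ∉ N)).card : ℤ) = (p - 1) * Nat.card N := by
    have h1 := cmb_cardT N I hNI
    rw [hcard] at h1
    have h2 : ((univ.filter (fun g => g ∈ I ∧ g ∉ N)).card : ℤ) + Nat.card N = p * Nat.card N := by
      exact_mod_cast h1
    linarith
  have hS : sm b {g | g ∈ I ∧ g ≠ 1} = sm b {g | g ∈ N ∧ g ≠ 1} + (p - 1) * Nat.card N * B := by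
    rw [cmb_split b N I hNI, cmb_sumT b N I B hNI h, hT]
  have hUI : U b I l = ((l : ℚ) + ((sm b {g | g ∈ N ∧ g ≠ 1} : ℤ) : ℚ)
      + ((p : ℚ) - 1) * Nat.card N * B) / (p * Nat.card N) := by
    unfold U
    rw [hS, hcard]
    push_cast
    ring
  have last : (∃ g ∈ I, g ∉ N ∧ b g = l) → U b I l = B := by
    rintro ⟨g, hg, hgN, hgl⟩
    have h1 := cmb_key b N I B l hU hNI h hl g hg hgN hgl
    have h2 : (l : ℚ) + ((sm b {g | g ∈ N ∧ g ≠ 1} : ℤ) : ℚ) = Nat.card N * B := by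
      exact_mod_cast h1
    rw [hUI, h2]
    field_simp
    ring
  refine ⟨?_, last⟩
  by_cases hN : ∃ n ∈ N, n ≠ 1 ∧ b n = l
  · right
    refine ⟨l, ⟨hN, fun g hg hg1 => hl.le g (hNI hg) hg1⟩, ?_⟩
    rw [hUI]
    unfold U
    field_simp
  · left
    obtain ⟨g, hg, hg1, hgl⟩ := hl.mem
    refine last ⟨g, hg, fun hgN => hN ⟨g, hgN, hg1, hgl⟩, hgl⟩

end Pool.CND
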