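import Pool.Agent.H37.CND.Stmts

set_option autoImplicit false

namespace Pool.CND

open Finset

theorem ngd_gcd (c : ℚ) (a b : ℕ) (ha : ∃ z : ℤ, (a : ℚ) * c = z) (hb : ∃ z : ℤ, (b : ℚ) * c = z) :
    ∃ z : ℤ, ((Nat.gcd a b : ℕ) : ℚ) * c = z := by
  obtain ⟨x, hx⟩ := ha
  obtain ⟨y, hy⟩ := hb
  refine ⟨Nat.gcdA a b * x + Nat.gcdB a b * y, ?_⟩
  have h : ((Nat.gcd a b : ℕ) : ℤ) = a * Nat.gcdA a b + b * Nat.gcdB a b := Nat.gcd_eq_gcd_ab a b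
  have h' : ((Nat.gcd a b : ℕ) : ℚ) = (a : ℚ) * (Nat.gcdA a b : ℤ) + (b : ℚ) * (Nat.gcdB a b : ℤ) := by
    exact_mod_cast h
  rw [h']
  push_cast
  rw [← hx, ← hy]
  ring

theorem ngd_thm : S_NGD := by
  intro k G _ _ D hD h
  have hDS : D ∈ {N : ℕ | 1 ≤ N ∧ {c : ℚ | c ∈ Cond k G ∧ ¬ ∃ z : ℤ, (N : ℚ) * c = z}.Finite} := by
    refine ⟨hD, ?_⟩
    have he : {c : ℚ | c ∈ Cond k G ∧ ¬ ∃ z : ℤ, (D : ℚ) * c = z} = ∅ := by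
      rw [Set.eq_empty_iff_forall_notMem]
      rintro c ⟨h1, h2⟩
      exact h2 (h c h1)
    rw [he]
    exact Set.finite_empty
  have hN : NG k G ∈ {N : ℕ | 1 ≤ N ∧ {c : ℚ | c ∈ Cond k G ∧ ¬ ∃ z : ℤ, (N : ℚ) * c = z}.Finite} :=
    Nat.sInf_mem ⟨D, hDS⟩
  have hg : Nat.gcd (NG k G) D ∈
      {N : ℕ | 1 ≤ N ∧ {c : ℚ | c ∈ Cond k G ∧ ¬ ∃ z : ℤ, (N : ℚ) * c = z}.Finite} := by
    refine ⟨Nat.gcd_pos_of_pos_right _ hD, ?_⟩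
    refine (hN.2.union hDS.2).subset ?_
    rintro c ⟨h1, h2⟩
    by_contra h3
    rw [Set.mem_union, not_or] at h3
    have ha : ∃ z : ℤ, ((NG k G : ℕ) : ℚ) * c = z := by
      by_contra h4
      exact h3.1 ⟨h1, h4⟩
    have hb : ∃ z : ℤ, (D : ℚ) * c = z := by
      by_contra h4
      exact h3.2 ⟨h1, h4⟩
    exact h2 (ngd_gcd c _ _ ha hb)
  have hle : NG k G ≤ Nat.gcd (NG k G) D := Nat.sInf_le hg
  have heq : Nat.gcd (NG k G) D = NG k G :=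
    le_antisymm (Nat.gcd_le_left _ hN.1) hle
  exact Nat.gcd_eq_left_iff_dvd.1 heq

end Pool.CND
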