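import Pool.Agent.H37.CND.Stmts

set_option autoImplicit false

namespace Pool.CND

open Finset

theorem wld_thm (h1 : S_SUB) (h2 : S_WPG) (h3 : S_TMO) : S_WLD := by
  intro p k L G _ _ _ _ _ P ρ hp hk hρ
  haveI : Fact p.Prime := ⟨hp⟩
  obtain ⟨W, I, hW, hI, hWI, hnorm⟩ := h1 k L G P ρ
  refine ⟨W, I, hW, hI, hWI, ?_, ?_⟩
  · have hPG : IsPGroup p W := by
      intro g
      have hg : (g : G) ∈ ram P ρ 1 := by
        rw [← hW]
        exact g.2
      obtain ⟨r, hr⟩ := h2 p k L G P ρ hp hk hρ g hg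
      refine ⟨r, ?_⟩
      apply Subtype.ext
      rw [Subgroup.coe_pow, Subgroup.coe_one]
      exact hr
    exact IsPGroup.iff_card.1 hPG
  · haveI hN : (W.subgroupOf I).Normal := by
      refine ⟨fun n hn g => ?_⟩
      rw [Subgroup.mem_subgroupOf] at hn ⊢
      exact hnorm g g.2 n hn
    refine ⟨(W.subgroupOf I).index, ?_, ?_⟩
    · intro hdvd
      rw [Subgroup.index_eq_card] at hdvd
      obtain ⟨x, hx⟩ := exists_prime_orderOf_dvd_card' (G := I ⧸ W.subgroupOf I) p hdvd
      obtain ⟨g, rfl⟩ := QuotientGroup.mk_surjective x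
      have hgp : g ^ p ∈ W.subgroupOf I := by
        rw [← QuotientGroup.eq_one_iff, QuotientGroup.mk_pow, ← hx]
        exact pow_orderOf_eq_one _
      rw [Subgroup.mem_subgroupOf, Subgroup.coe_pow] at hgp
      have hg0 : (g : G) ∈ ram P ρ 0 := by
        rw [← hI]
        exact g.2
      have hgp1 : (g : G) ^ p ∈ ram P ρ 1 := by
        rw [← hW]
        exact hgp
      have hg1 : (g : G) ∈ ram P ρ 1 := h3 p k L G P ρ hp hk g hg0 hgp1
      have hgW : g ∈ W.subgroupOf I := by
        rw [Subgroup.mem_subgroupOf]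
        rw [← hW] at hg1
        exact hg1
      have hone : ((g : I) : I ⧸ W.subgroupOf I) = 1 := (QuotientGroup.eq_one_iff g).2 hgW
      rw [hone, orderOf_one] at hx
      exact hp.one_lt.ne hx
    · rw [← Nat.card_congr (Subgroup.subgroupOfEquivOfLe hWI).toEquiv]
      exact (Subgroup.index_mul_card (W.subgroupOf I)).symm

end Pool.CND
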